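import Pool.Agent.Q256.T6.Per
import Pool.Agent.Q95.T6.Gens
import Pool.Agent.Q95.T6.Ideals
import Pool.Agent.Q273.TR.Stm

/-!
# Project TR (helper273), job TR-CNT1: the norm equation modulo an irreducible polynomial
-/

set_option autoImplicit false

namespace Pool.Agent.Q177.TR

open Finset NumberField Polynomial Q273.TR
open Pool.Agent.Q256.T6 (norm_box exists_w norm_w w_bound exists_field res one_le_mah mah)
open Pool.Agent.Q256.T3 (P P_sub)

lemma Pv_eq {s : ℕ} (u : Fin (s + 1) → ℤ) : Pv u = P u := by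
  unfold Pv Pf P
  rfl

lemma rs_natAbs {s : ℕ} (g : ℤ[X]) (u : Fin (s + 1) → ℤ) :
    (rs g g.natDegree s u).natAbs = (res u g).natAbs := by
  unfold rs res
  rw [Pv_eq, resultant_comm, Int.natAbs_mul, Int.natAbs_pow]
  simp

theorem cnt1 : S_CNT1 := by
  classical
  intro g s hg hg1 ε hε
  obtain ⟨C1, hC1, h1⟩ := norm_box Pool.Agent.Q95.T6.ideals Pool.Agent.Q95.T6.gens g.natDegree ε hε
  have hg0 : g ≠ 0 := hg.ne_zero
  have hM1 := one_le_mah g hg0
  refine ⟨C1 * (((s : ℝ) + 1) * mah g ^ s) ^ ε, fun T m F hT hm hF hF2 => ?_⟩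
  rcases F.eq_empty_or_nonempty with h0 | ⟨u0, hu0⟩
  · subst h0
    simp only [card_empty, Nat.cast_zero]
    positivity
  have hTr : (1 : ℝ) ≤ T := by exact_mod_cast hT
  obtain ⟨K, _, _, x, hfr, hx, hx0, hdiv⟩ := exists_field g hg (by omega)
  have hw : ∀ c : Fin (s + 1) → ℤ, ∃ w : 𝓞 K,
      (w : K) = (g.leadingCoeff : K) ^ s * Polynomial.aeval x (P c) :=
    fun c => exists_w g K x hx0 c
  choose w hw using hw
  have hlc : g.leadingCoeff ≠ 0 := Polynomial.leadingCoeff_ne_zero.2 hg0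
  have hlcK : (g.leadingCoeff : K) ≠ 0 := by exact_mod_cast hlc
  have hlcN : 0 < g.leadingCoeff.natAbs := Int.natAbs_pos.2 hlc
  -- the map is injective
  have hinj : ∀ u ∈ F, ∀ v ∈ F, w u = w v → u = v := by
    intro u hu v hv huv
    by_contra hne
    apply hF2 u hu v hv hne
    have e2 : (w u : K) = (w v : K) := by rw [huv]
    rw [hw, hw] at e2
    have e3 := mul_left_cancel₀ (pow_ne_zero _ hlcK) e2
    have e4 : g ∣ P u - P v := hdiv _ (by rw [map_sub, e3, sub_self])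
    refine ⟨?_, fun h => absurd h (lt_irrefl _)⟩
    rw [Pv_eq, ← P_sub]
    exact Polynomial.map_dvd _ e4
  have hcard : #F = #(F.image w) := (card_image_of_injOn (fun u hu v hv h => hinj u hu v hv h)).symm
  -- the norms
  have hnorm : ∀ c, g.leadingCoeff.natAbs ^ s * (Algebra.norm ℤ (w c)).natAbs =
      g.leadingCoeff.natAbs ^ (s * g.natDegree) * (res c g).natAbs := by
    intro c
    have e1 := norm_w g hg0 K x hfr hx hx0 c (w c) (hw c)
    have e2 := congrArg Int.natAbs e1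
    rw [Int.natAbs_mul, Int.natAbs_mul, Int.natAbs_pow, Int.natAbs_pow] at e2
    exact e2
  have hsame : ∀ u ∈ F, (Algebra.norm ℤ (w u)).natAbs = (Algebra.norm ℤ (w u0)).natAbs := by
    intro u hu
    have e1 := hnorm u
    have e2 := hnorm u0
    rw [← rs_natAbs, (hF u hu).2] at e1
    rw [← rs_natAbs, (hF u0 hu0).2, ← e1] at e2
    exact (Nat.eq_of_mul_eq_mul_left (pow_pos hlcN s) e2).symm
  have hn1 : 1 ≤ (Algebra.norm ℤ (w u0)).natAbs := by
    rw [Nat.one_le_iff_ne_zero]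
    intro h
    have e1 := hnorm u0
    rw [h, mul_zero, ← rs_natAbs, (hF u0 hu0).2] at e1
    have e2 := Nat.mul_ne_zero (pow_ne_zero (s * g.natDegree) hlcN.ne')
      (Nat.one_le_iff_ne_zero.1 hm)
    exact e2 e1.symm
  obtain ⟨B, hB⟩ : ∃ B : ℝ, B = (s + 1) * T * mah g ^ s := ⟨_, rfl⟩
  have hd1 : (1 : ℝ) ≤ (s : ℝ) + 1 := by have : (0 : ℝ) ≤ s := Nat.cast_nonneg _; linarith
  have hMd : (1 : ℝ) ≤ mah g ^ s := one_le_pow₀ hM1
  have hB1 : 1 ≤ B := by
    rw [hB]
    exact one_le_mul_of_one_le_of_one_le (one_le_mul_of_one_le_of_one_le hd1 hTr) hMd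
  have h2 := h1 K hfr (Algebra.norm ℤ (w u0)).natAbs B (F.image w) hn1 hB1 (by
    intro z hz
    obtain ⟨u, hu, rfl⟩ := mem_image.1 hz
    refine ⟨hsame u hu, fun σ => ?_⟩
    rw [hB]
    exact w_bound g hg0 K x hx0 u T (hF u hu).1 (w u) (hw u) σ)
  rw [hcard]
  refine h2.trans (le_of_eq ?_)
  have e5 : B = ((s : ℝ) + 1) * mah g ^ s * T := by rw [hB]; ring
  rw [e5, Real.mul_rpow (by positivity) (by positivity)]
  ring

end Pool.Agent.Q177.TR
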